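import Mathlib
import Pool.Agent.MP_6b3410_lc.H75.Spec2
import Pool.Agent.MP_6b3410_lc.H5.Expander

/-!
Good codes with sparse parity checks.
-/

namespace Pool.Agent.MP_6b3410_lc.H26

open Finset Pool.Agent.MP_6b3410_lc.H75

lemma exists_checks (n : ℕ) (hn : 0 < n) :
    ∃ φ : Fin (2 * n) × Fin 7 → Fin n, ∀ z : Fin (2 * n) → ZMod 2, z ≠ 0 →
      (∀ j, ∑ e ∈ Finset.univ.filter (fun e => φ e = j), z e.1 = 0) →
      2 * n ≤ 21952 * (Finset.univ.filter fun p => z p ≠ 0).card := by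
  classical
  obtain ⟨φ₀, hφ⟩ := H5.exists_expander n (n / 10976) (Fin 2 × Fin 7) hn (by
    simp only [Fintype.card_prod, Fintype.card_fin]; omega)
  let E : Fin (2 * n) ≃ Fin 2 × Fin n := finProdFinEquiv.symm
  let ι : Fin (2 * n) × Fin 7 → Fin n × (Fin 2 × Fin 7) := fun e => ((E e.1).2, (E e.1).1, e.2)
  have hι : Function.Injective ι := by
    rintro ⟨p, k⟩ ⟨p', k'⟩ h
    simp only [ι, Prod.mk.injEq] at h
    exact Prod.ext (E.injective (Prod.ext h.2.1 h.1)) h.2.2
  refine ⟨fun e => φ₀ (ι e), fun z hz hc => ?_⟩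
  set J' : Finset (Fin (2 * n)) := Finset.univ.filter fun p => z p ≠ 0 with hJ'
  by_contra hlt
  have hpos : 0 < J'.card := by
    obtain ⟨p, hp⟩ := Function.ne_iff.1 hz
    exact Finset.card_pos.2 ⟨p, by simpa [hJ'] using hp⟩
  set J : Finset (Fin n) := J'.image fun p => (E p).2 with hJ
  have h1 : J.card ≤ J'.card := Finset.card_image_le
  have h2 := hφ J (by omega)
  set S : Finset (Fin (2 * n) × Fin 7) := J' ×ˢ Finset.univ with hS
  have hSc : S.card = J'.card * 7 := by simp [hS]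
  have hsub : S.image ι ⊆ J ×ˢ Finset.univ := by
    intro e he
    obtain ⟨e', he', rfl⟩ := Finset.mem_image.1 he
    exact Finset.mem_product.2 ⟨Finset.mem_image_of_mem _ (Finset.mem_product.1 he').1, mem_univ _⟩
  have h3 : ((J ×ˢ Finset.univ).image φ₀).card ≤ (S.image fun e => φ₀ (ι e)).card +
      (J ×ˢ (Finset.univ : Finset (Fin 2 × Fin 7)) \ S.image ι).card := by
    conv_lhs => rw [← Finset.union_sdiff_of_subset hsub, Finset.image_union, Finset.image_image]
    exact (Finset.card_union_le _ _).trans (Nat.add_le_add le_rfl Finset.card_image_le)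
  have h4 := Finset.card_sdiff_add_card_eq_card hsub
  rw [Finset.card_image_of_injective _ hι, hSc, Finset.card_product, Finset.card_univ] at h4
  have h5 : 2 * (S.image fun e => φ₀ (ι e)).card ≤ S.card := by
    refine Finset.mul_card_image_le_card S 2 fun j hj => ?_
    obtain ⟨e, he, rfl⟩ := Finset.mem_image.1 hj
    by_contra hc'
    refine (Finset.mem_filter.1 (Finset.mem_product.1 he).1).2 ?_
    rw [← hc (φ₀ (ι e))]
    symm
    refine Finset.sum_eq_single_of_mem e ?_ fun e' he' hne => ?_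
    · exact Finset.mem_filter.2 ⟨mem_univ _, rfl⟩
    by_contra h0
    refine hc' (Finset.one_lt_card.2 ⟨e, by simp [he], e', ?_, hne.symm⟩)
    exact Finset.mem_filter.2 ⟨Finset.mem_product.2 ⟨by simpa [hJ'] using h0, mem_univ _⟩,
      (Finset.mem_filter.1 he').2⟩
  simp only [Fintype.card_prod, Fintype.card_fin] at h2 h4
  omega

lemma exists_info {M : ℕ} (C : Submodule (ZMod 2) (Fin M → ZMod 2)) :
    ∃ I : Finset (Fin M), Module.finrank (ZMod 2) C ≤ I.card ∧
      (∀ y : Fin M → ZMod 2, ∃ z ∈ C, ∀ p ∈ I, z p = y p) ∧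
      ∀ z ∈ C, (∀ p ∈ I, z p = 0) → z = 0 := by
  classical
  obtain ⟨I, hI, hmax⟩ := Finset.exists_max_image
    (Finset.univ.filter fun I : Finset (Fin M) => ∀ y : Fin M → ZMod 2, ∃ z ∈ C, ∀ p ∈ I, z p = y p)
    Finset.card ⟨∅, by simpa using ⟨0, C.zero_mem⟩⟩
  have hI' := (Finset.mem_filter.1 hI).2
  have hinj : ∀ z ∈ C, (∀ p ∈ I, z p = 0) → z = 0 := by
    intro z hz h0
    by_contra hne
    obtain ⟨p, hp⟩ := Function.ne_iff.1 hne
    have hp' : z p ≠ 0 := hp
    have hpI : p ∉ I := fun h => hp' (h0 p h)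
    have := hmax (insert p I) (Finset.mem_filter.2 ⟨mem_univ _, fun y => ?_⟩)
    · rw [Finset.card_insert_of_notMem hpI] at this; omega
    obtain ⟨w, hw, hw'⟩ := hI' y
    refine ⟨w + ((y p - w p) * (z p)⁻¹) • z, C.add_mem hw (C.smul_mem _ hz), fun q hq => ?_⟩
    rcases Finset.mem_insert.1 hq with rfl | hq
    · simp [mul_assoc, inv_mul_cancel₀ hp']
    · simp [h0 q hq, hw' q hq]
  refine ⟨I, ?_, hI', hinj⟩
  let R : C →ₗ[ZMod 2] (I → ZMod 2) := (LinearMap.funLeft _ _ Subtype.val).comp C.subtype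
  have hR : Function.Injective R := by
    rw [injective_iff_map_eq_zero]
    intro z hz
    exact Subtype.ext (hinj z z.2 fun p hp => congrFun hz ⟨p, hp⟩)
  simpa using LinearMap.finrank_le_finrank_of_injective hR

theorem code : CodeStmt := by
  classical
  refine ⟨21952, by norm_num, fun n hn => ?_⟩
  obtain ⟨φ, hφ⟩ := exists_checks n hn
  let H : (Fin (2 * n) → ZMod 2) →ₗ[ZMod 2] (Fin n → ZMod 2) :=
    LinearMap.pi fun j => ∑ e ∈ Finset.univ.filter (fun e => φ e = j), LinearMap.proj e.1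
  have hH : ∀ z, z ∈ LinearMap.ker H ↔
      ∀ j, ∑ e ∈ Finset.univ.filter (fun e => φ e = j), z e.1 = 0 := fun z => by
    simp [H, funext_iff, LinearMap.sum_apply]
  obtain ⟨I, h1, h2, h3⟩ := exists_info (LinearMap.ker H)
  have h4 : n ≤ I.card := by
    have e := H.finrank_range_add_finrank_ker
    have l := (LinearMap.range H).finrank_le
    simp only [Module.finrank_fintype_fun_eq_card, Fintype.card_fin] at e l
    omega
  obtain ⟨τ⟩ : Nonempty (Fin n ↪ I) := Function.Embedding.nonempty_of_card_le (by simpa using h4)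
  let σ : Fin n → Fin (2 * n) := fun i => (τ i).1
  have hσ : Function.Injective σ := Subtype.val_injective.comp τ.injective
  let Z : Finset (Fin (2 * n)) := I \ Finset.univ.image σ
  let P : (Fin n → ZMod 2) → (Fin (2 * n) → ZMod 2) → Prop := fun x z =>
    z ∈ LinearMap.ker H ∧ (∀ i, z (σ i) = x i) ∧ ∀ p ∈ Z, z p = 0
  have hex : ∀ x, ∃ z, P x z := fun x => by
    obtain ⟨z, hz, hz'⟩ := h2 (Function.extend σ x 0)
    refine ⟨z, hz, fun i => ?_, fun p hp => ?_⟩
    · rw [hz' _ (τ i).2, hσ.extend_apply]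
    · obtain ⟨hp1, hp2⟩ := Finset.mem_sdiff.1 hp
      rw [hz' _ hp1, Function.extend_apply']
      · rfl
      · simpa using hp2
  have hun : ∀ x z z', P x z → P x z' → z = z' := fun x z z' h h' => by
    refine sub_eq_zero.1 (h3 _ (Submodule.sub_mem _ h.1 h'.1) fun p hp => ?_)
    by_cases hp' : p ∈ Finset.univ.image σ
    · obtain ⟨i, _, rfl⟩ := Finset.mem_image.1 hp'
      simp [h.2.1, h'.2.1]
    · have : p ∈ Z := Finset.mem_sdiff.2 ⟨hp, hp'⟩
      simp [h.2.2 p this, h'.2.2 p this]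
  choose f hf using hex
  let Enc : Encoder n (2 * n) :=
    { toFun := f
      map_add' := fun x y => hun _ _ _ (hf _) ⟨Submodule.add_mem _ (hf x).1 (hf y).1,
        fun i => by simp [(hf x).2.1, (hf y).2.1],
        fun p hp => by simp [(hf x).2.2 p hp, (hf y).2.2 p hp]⟩
      map_smul' := fun c x => hun _ _ _ (hf _) ⟨Submodule.smul_mem _ _ (hf x).1,
        fun i => by simp [(hf x).2.1], fun p hp => by simp [(hf x).2.2 p hp]⟩ }
  refine ⟨Enc, fun x hx => ?_, φ, σ, Z, fun x z => ⟨?_, fun h => ?_⟩⟩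
  · have h0 : f x ≠ 0 := fun h => hx (funext fun i => by rw [← (hf x).2.1 i, h]; rfl)
    exact hφ (f x) h0 ((hH _).1 (hf x).1)
  · rintro rfl
    exact ⟨(hH _).1 (hf x).1, (hf x).2⟩
  · exact hun x _ _ ⟨(hH _).2 h.1, h.2⟩ (hf x)

end Pool.Agent.MP_6b3410_lc.H26
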