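import Mathlib
import Pool.Agent.MP_6b3410_lc.X91.Glue

/-!
The explicit host graph has `O (n log ^ 5 n)` edges.
-/

open Finset

namespace Pool.Agent.MP_6b3410_lc.H26.HostCard

open Classical

/-- the admissible second endpoints, for a fixed first endpoint -/
theorem row_card (n T l i : ℕ) (hn : n < 2 ^ (l + 1)) :
    ((range n).filter fun j => (∃ a : ℕ, j ≤ i + 2 ^ a + T ∧ i + 2 ^ a ≤ j + T) ∨
      i + n ≤ j + T).card ≤ (l + 3) * (2 * T + 1) := by
  by_cases hT : n ≤ T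
  · refine (card_filter_le _ _).trans ?_
    rw [card_range]
    nlinarith
  · have hsub : ((range n).filter fun j => (∃ a : ℕ, j ≤ i + 2 ^ a + T ∧ i + 2 ^ a ≤ j + T) ∨
        i + n ≤ j + T) ⊆ ((range (l + 2)).biUnion fun a => Icc (i + 2 ^ a - T) (i + 2 ^ a + T)) ∪
        Ico (n - T) n := by
      intro j hj
      obtain ⟨h1, h2⟩ := mem_filter.1 hj
      rw [mem_range] at h1
      rcases h2 with ⟨a, h3, h4⟩ | h2
      · refine mem_union_left _ (mem_biUnion.2 ⟨a, mem_range.2 ?_, mem_Icc.2 ⟨by omega, h3⟩⟩)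
        have h5 : 2 ^ a < 2 ^ (l + 2) := by
          rw [pow_succ 2 (l + 1)]
          omega
        exact (Nat.pow_lt_pow_iff_right (by norm_num)).1 h5
      · exact mem_union_right _ (mem_Ico.2 ⟨by omega, h1⟩)
    refine (card_le_card hsub).trans ((card_union_le _ _).trans ?_)
    have h6 : ((range (l + 2)).biUnion fun a => Icc (i + 2 ^ a - T) (i + 2 ^ a + T)).card ≤
        (l + 2) * (2 * T + 1) := by
      refine card_biUnion_le.trans ((sum_le_card_nsmul _ _ (2 * T + 1) fun a _ => ?_).trans ?_)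
      · rw [Nat.card_Icc]
        omega
      · simp
    have h7 : (Ico (n - T) n).card ≤ 2 * T + 1 := by
      rw [Nat.card_Ico]
      omega
    have h8 : (l + 3) * (2 * T + 1) = (l + 2) * (2 * T + 1) + (2 * T + 1) := by ring
    omega

/-- the number of edges of the explicit host -/
theorem host_card (n T : ℕ) (U : Finset {p : Fin n × Fin n // p.1 < p.2})
    (hU : ∀ e ∈ U, (∃ a : ℕ, e.1.2.val ≤ e.1.1.val + 2 ^ a + T ∧
      e.1.1.val + 2 ^ a ≤ e.1.2.val + T) ∨ e.1.1.val + n ≤ e.1.2.val + T) :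
    U.card ≤ n * ((Nat.log 2 n + 3) * (2 * T + 1)) := by
  have hn : n < 2 ^ (Nat.log 2 n + 1) := Nat.lt_pow_succ_log_self (by norm_num) n
  have h1 : U.card ≤ ((range n).sigma fun i => (range n).filter fun j =>
      (∃ a : ℕ, j ≤ i + 2 ^ a + T ∧ i + 2 ^ a ≤ j + T) ∨ i + n ≤ j + T).card := by
    refine card_le_card_of_injOn (fun e => ⟨e.1.1.val, e.1.2.val⟩) (fun e he => ?_) ?_
    · exact mem_coe.2 (mem_sigma.2 ⟨mem_range.2 e.1.1.2,
        mem_filter.2 ⟨mem_range.2 e.1.2.2, hU e (mem_coe.1 he)⟩⟩)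
    · intro e _ e' _ h
      simp only [Sigma.mk.injEq, heq_eq_eq] at h
      exact Subtype.ext (Prod.ext (Fin.ext h.1) (Fin.ext h.2))
  refine h1.trans ?_
  rw [card_sigma]
  refine (sum_le_card_nsmul _ _ _ fun i _ => row_card n T _ i hn).trans ?_
  simp

/-- with `T = (log₂ n) ^ 4` and `n ≥ 256` the host has at most `3 n (log₂ n) ^ 5` edges -/
theorem host_card_log (n : ℕ) (hn : 256 ≤ n) (U : Finset {p : Fin n × Fin n // p.1 < p.2})
    (hU : ∀ e ∈ U, (∃ a : ℕ, e.1.2.val ≤ e.1.1.val + 2 ^ a + Nat.log 2 n ^ 4 ∧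
      e.1.1.val + 2 ^ a ≤ e.1.2.val + Nat.log 2 n ^ 4) ∨
      e.1.1.val + n ≤ e.1.2.val + Nat.log 2 n ^ 4) :
    U.card ≤ 3 * n * Nat.log 2 n ^ 5 := by
  refine (host_card n _ U hU).trans ?_
  have h8 : 8 ≤ Nat.log 2 n := Nat.le_log_of_pow_le (by norm_num) (by norm_num; omega)
  generalize Nat.log 2 n = l at *
  have h4 : l + 3 ≤ 2 * l ^ 4 := by
    have : l ^ 1 ≤ l ^ 4 := Nat.pow_le_pow_right (by omega) (by norm_num)
    rw [pow_one] at this
    omega
  have h5 : 8 * l ^ 4 ≤ l ^ 5 := by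
    rw [pow_succ l 4, mul_comm]
    exact Nat.mul_le_mul_left _ h8
  have h6 : (l + 3) * (2 * l ^ 4 + 1) ≤ 3 * l ^ 5 := by
    have : (l + 3) * (2 * l ^ 4 + 1) = 2 * l ^ 5 + 6 * l ^ 4 + (l + 3) := by ring
    omega
  calc n * ((l + 3) * (2 * l ^ 4 + 1)) ≤ n * (3 * l ^ 5) := Nat.mul_le_mul_left _ h6
    _ = 3 * n * l ^ 5 := by ring

/-- the host has at least `n` edges -/
theorem host_card_ge (n T : ℕ) (hn : 4 ≤ n) (U : Finset {p : Fin n × Fin n // p.1 < p.2})
    (hU : ∀ e, ((∃ a : ℕ, e.1.2.val ≤ e.1.1.val + 2 ^ a + T ∧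
      e.1.1.val + 2 ^ a ≤ e.1.2.val + T) ∨ e.1.1.val + n ≤ e.1.2.val + T) → e ∈ U) :
    n ≤ U.card := by
  have h1 : (univ : Finset (Fin (n - 2) × Fin 2)).card ≤ U.card := by
    refine card_le_card_of_injOn (fun q => ⟨(⟨q.1.val, by have := q.1.2; omega⟩,
      ⟨q.1.val + q.2.val + 1, by have := q.1.2; have := q.2.2; omega⟩),
      Fin.mk_lt_mk.2 (by omega)⟩) (fun q _ => mem_coe.2 (hU _ (Or.inl ⟨q.2.val, ?_⟩))) ?_
    · have h2 : 2 ^ q.2.val = q.2.val + 1 := by
        have := q.2.2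
        rcases (by omega : q.2.val = 0 ∨ q.2.val = 1) with h | h <;> rw [h] <;> norm_num
      dsimp only
      omega
    · intro q _ q' _ h
      simp only [Subtype.mk.injEq, Prod.mk.injEq, Fin.mk.injEq] at h
      exact Prod.ext (Fin.ext h.1) (Fin.ext (by omega))
  simp only [card_univ, Fintype.card_prod, Fintype.card_fin] at h1
  omega

/-- passing from the number of vertices to the number of edges of the host -/
theorem ratio_le (C n N : ℕ) (hn : 3 ^ 100 ≤ n) (h1 : n ≤ N) (h2 : N ≤ 3 * n * Nat.log 2 n ^ 5) :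
    (N : ℝ) / Real.log N ^ (C + 6) ≤ (n : ℝ) / Real.log n ^ C := by
  have hn0 : n ≠ 0 := by
    rintro rfl
    norm_num at hn
  have hnp : (0 : ℝ) < n := by exact_mod_cast Nat.pos_of_ne_zero hn0
  have h3 : (1 : ℝ) ≤ Real.log 3 := by
    rw [Real.le_log_iff_exp_le (by norm_num)]
    linarith [Real.exp_one_lt_d9]
  have hL : (100 : ℝ) ≤ Real.log n := by
    have h4 : ((3 : ℝ) ^ 100) ≤ n := by exact_mod_cast hn
    have h5 := Real.log_le_log (by positivity) h4
    rw [Real.log_pow] at h5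
    push_cast at h5
    linarith
  have hl : (Nat.log 2 n : ℝ) ≤ 2 * Real.log n := by
    have h4 : ((2 : ℝ) ^ Nat.log 2 n) ≤ n := by exact_mod_cast Nat.pow_log_le_self 2 hn0
    have h5 := Real.log_le_log (by positivity) h4
    rw [Real.log_pow] at h5
    have h6 := Real.log_two_gt_d9
    have h7 : (0 : ℝ) ≤ Nat.log 2 n := by positivity
    nlinarith
  have hLN : Real.log n ≤ Real.log N := Real.log_le_log hnp (by exact_mod_cast h1)
  have hLp : (0 : ℝ) < Real.log n := by linarith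
  have hN : (N : ℝ) ≤ n * Real.log n ^ 6 := by
    have h4 : (N : ℝ) ≤ 3 * n * (Nat.log 2 n : ℝ) ^ 5 := by exact_mod_cast h2
    have h5 : (Nat.log 2 n : ℝ) ^ 5 ≤ (2 * Real.log n) ^ 5 :=
      pow_le_pow_left₀ (by positivity) hl 5
    have h6 : 3 * (2 * Real.log n) ^ 5 ≤ Real.log n ^ 6 := by
      have h7 : (0 : ℝ) < Real.log n ^ 5 := by positivity
      have h8 : Real.log n ^ 6 = Real.log n * Real.log n ^ 5 := by ring
      have h9 : 3 * (2 * Real.log n) ^ 5 = 96 * Real.log n ^ 5 := by ring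
      rw [h8, h9]
      exact mul_le_mul_of_nonneg_right (by linarith) h7.le
    calc (N : ℝ) ≤ n * (3 * (Nat.log 2 n : ℝ) ^ 5) := by linarith
      _ ≤ n * Real.log n ^ 6 := mul_le_mul_of_nonneg_left (by linarith) hnp.le
  calc (N : ℝ) / Real.log N ^ (C + 6) ≤ (N : ℝ) / Real.log n ^ (C + 6) :=
        div_le_div_of_nonneg_left (by positivity) (by positivity)
          (pow_le_pow_left₀ hLp.le hLN _)
    _ ≤ n * Real.log n ^ 6 / Real.log n ^ (C + 6) :=
        div_le_div_of_nonneg_right hN (by positivity)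
    _ = (n : ℝ) / Real.log n ^ C := by
        rw [pow_add]
        field_simp

open Pool.Agent.MP_6b3410_lc.H91 Pool.Agent.MP_6b3410_lc.X91 in
/-- the bound with the size of the explicit host in the statement -/
theorem glue4 (hC : CircStmt) (hH : HyperStmt) (hP : PatStmt) (hN : ParStmt) (hLoc : LocStmt)
    (hCsp : CspStmt) (hHost : HostStmt) (hNum : NumStmt) :
    ∃ C n₀ : ℕ, ∀ n : ℕ, n₀ ≤ n → ∀ U : Finset {p : Fin n × Fin n // p.1 < p.2},
      (∀ e, e ∈ U ↔ (∃ k : ℕ, e.1.2.val ≤ e.1.1.val + 2 ^ k + Nat.log 2 n ^ 4 ∧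
          e.1.1.val + 2 ^ k ≤ e.1.2.val + Nat.log 2 n ^ 4) ∨
        e.1.1.val + n ≤ e.1.2.val + Nat.log 2 n ^ 4) →
      n ≤ U.card ∧ U.card ≤ 3 * n * Nat.log 2 n ^ 5 ∧
      ∃ H : Finset {p : Fin n × Fin n // p.1 < p.2}, H ⊆ U ∧ H.card ≤ 3 * n ∧
      ∀ (s : ℕ) (G : Fin s → Bool × Bool → Bool)
        (a b : Fin s → ({p : Fin n × Fin n // p.1 < p.2} ⊕ Fin s)) (o : Fin s),
        (∀ g j : Fin s, (a g = Sum.inr j → j < g) ∧ (b g = Sum.inr j → j < g)) →
        (∀ g : Fin s, Monotone (G g)) →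
        (∀ x : {p : Fin n × Fin n // p.1 < p.2} → Bool, (∀ e, x e = true → e ∈ H) →
          ∀ val : Fin s → Bool,
          (∀ g : Fin s, val g = G g (Sum.elim x val (a g), Sum.elim x val (b g))) →
          (val o = true ↔
            (SimpleGraph.fromRel
              (fun i j : Fin n => ∃ h : i < j, x ⟨(i, j), h⟩ = true)).IsHamiltonian)) →
        Real.exp (n / Real.log n ^ C) ≤ (s : ℝ) ∧
          Real.exp (U.card / Real.log U.card ^ (C + 6)) ≤ (s : ℝ) := by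
  obtain ⟨C, n₀, h⟩ := glue3 hC hH hP hN hLoc hCsp hHost hNum
  refine ⟨C, max n₀ (3 ^ 100), fun n hn U hU => ?_⟩
  have h1 : 3 ^ 100 ≤ n := (le_max_right _ _).trans hn
  have h2 : 256 ≤ n := le_trans (by norm_num) h1
  obtain ⟨H, h3, h4, h5⟩ := h n ((le_max_left _ _).trans hn)
  have h6 := host_card_ge n _ (by omega) U fun e he => (hU e).2 he
  have h7 := host_card_log n h2 U fun e he => (hU e).1 he
  refine ⟨h6, h7, H, fun e he => (hU e).2 (h4 e he), h3, fun s G a b o c1 c2 c3 => ?_⟩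
  have h8 := h5 s G a b o c1 c2 c3
  exact ⟨h8, (Real.exp_le_exp.2 (ratio_le C n _ h1 h6 h7)).trans h8⟩

end Pool.Agent.MP_6b3410_lc.H26.HostCard
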